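import Pool.Agent.N739.SU.Chi

/-!
# Characters of mixed signature over real quadratic fields: `L_S'(χ, 0)` from the primes

Let `F` be a real quadratic field, `v₁`, `v₂` its infinite places, `K/F` a finite abelian extension in which
`v₁` splits completely (stays real) and `S` a finite set of places containing the infinite places, the
places ramified in `K` and at least one finite place; let `𝔪` be a multiple of the conductor which is
divisible exactly by the primes in `S`.  For a character `χ` of `G = Gal(K/F)`, `γ > π/2` and `T > 0` let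

`W_χ(T) = ∑_{v ∉ S} ∑_{k ≥ 1} χ(v)^k (1/k) e^{iγ k log N(v) / T} / Γ(1 + k log N(v) / T)`,

an absolutely convergent sum in which the weight of every single prime power `v^k` tends to `1/k` as
`T → ∞`.  We prove, without any hypothesis, `L_S(χ, 0) = 0` and

`L_S'(χ, 0) = T e^{-Λ} exp W_χ(T) + O(1/T)` (`T → ∞`), `Λ = ∫_0^∞ (e^{-u} - e^{iγu} / Γ(1 + u)) du / u`,

for all `χ` (also if the order at `0` is at least `2`, when the left side is zero).  So the equation
`L_S'(χ, 0) = log |u_χ|_v` of the problem holds for `u_χ` if and only if `T e^{-Λ} exp W_χ(T) → log |u_χ|_v`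
along one sequence `T_n → ∞`; and if `u` generates the one-dimensional space of the problem, Q1 for `χ`
says that `lim T e^{-Λ} exp W_χ(T) / log |u|_v` is in `ℚ(χ)`.
-/

set_option autoImplicit false

open scoped Classical

namespace Pool.Agent.Results.MP_c49e96_nt.DerivativeFromPrimes

open NumberField IsDedekindDomain Filter Topology

section defs

variable {K : Type} [Field K] [NumberField K]

/-- the ideals prime to `𝔪` -/
def PrimeTo (𝔪 : Ideal (𝓞 K)) : Submonoid (Ideal (𝓞 K)) where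
  carrier := {𝔞 | IsCoprime 𝔞 𝔪}
  mul_mem' hx hy := IsCoprime.mul_left hx hy
  one_mem' := isCoprime_one_left

/-- `art` is the Artin map of a finite abelian extension `H/K` with group `G` on the ideals prime to
`𝔪`, where `𝔪` is a multiple of the conductor of `H/K`: a surjective homomorphism which is trivial on
`(x)` for all totally positive `x ≡ 1 mod 𝔪`.  (By class field theory these homomorphisms are exactly the
Artin maps.) -/
structure IsArtinMap (𝔪 : Ideal (𝓞 K)) {G : Type} [CommGroup G] (art : PrimeTo 𝔪 →* G) :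
    Prop where
  surj : Function.Surjective art
  triv : ∀ x : 𝓞 K, x - 1 ∈ 𝔪 → (∀ σ : K →+* ℝ, 0 < σ (x : K)) →
    ∀ 𝔞 : PrimeTo 𝔪, (𝔞 : Ideal (𝓞 K)) = Ideal.span {x} → art 𝔞 = 1

/-- the infinite place `w` splits completely in `H`: `art` is also trivial on the `(x)`, `x ≡ 1 mod 𝔪`,
with `x` positive at the real places different from `w` (for a complex `w` this is automatic) -/
def SplitsCompletely {𝔪 : Ideal (𝓞 K)} {G : Type} [CommGroup G] (art : PrimeTo 𝔪 →* G)
    (w : InfinitePlace K) : Prop :=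
  ∀ x : 𝓞 K, x - 1 ∈ 𝔪 → (∀ v : InfinitePlace K, v.IsReal → v ≠ w → 0 < (v.embedding (x : K)).re) →
    ∀ 𝔞 : PrimeTo 𝔪, (𝔞 : Ideal (𝓞 K)) = Ideal.span {x} → art 𝔞 = 1

variable {𝔪 : Ideal (𝓞 K)} {G : Type} [CommGroup G]

/-- `χ(v)` for `v ∤ 𝔪`, and `0` for `v ∣ 𝔪` -/
noncomputable def val (art : PrimeTo 𝔪 →* G) (χ : G →* ℂˣ) (v : HeightOneSpectrum (𝓞 K)) : ℂ :=
  if h : IsCoprime v.asIdeal 𝔪 then ((χ (art ⟨v.asIdeal, h⟩) : ℂˣ) : ℂ) else 0

/-- `L_S(χ, s) = ∏_{v ∉ S} (1 - χ(v) N(v)^{-s})⁻¹` -/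
noncomputable def LS (art : PrimeTo 𝔪 →* G) (χ : G →* ℂˣ) (s : ℂ) : ℂ :=
  ∏' v : HeightOneSpectrum (𝓞 K), (1 - val art χ v * ((Ideal.absNorm v.asIdeal : ℕ) : ℂ) ^ (-s))⁻¹

/-- `L` is the continuation of `L_S(χ, s)`: meromorphic in the plane, equal to it for `Re s > 1` -/
def IsContinuation (art : PrimeTo 𝔪 →* G) (χ : G →* ℂˣ) (L : ℂ → ℂ) : Prop :=
  (∀ s, MeromorphicAt L s) ∧ ∀ s : ℂ, 1 < s.re → L s = LS art χ s

/-- the weight of the prime power `v^k`, `x = (v, k - 1)`: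
`(1/k) e^{iγ k log N(v) / T} / Γ(1 + k log N(v) / T)` -/
noncomputable def weight (γ T : ℝ) (x : HeightOneSpectrum (𝓞 K) × ℕ) : ℂ :=
  1 / (x.2 + 1) * (Complex.exp ((γ * ((x.2 + 1) * Real.log (Ideal.absNorm x.1.asIdeal) / T) : ℝ) *
    Complex.I) / (Real.Gamma (1 + (x.2 + 1) * Real.log (Ideal.absNorm x.1.asIdeal) / T) : ℂ))

/-- `W_χ(T)`, the sum over all primes `v ∤ 𝔪` and all `k ≥ 1` of
`χ(v)^k (1/k) e^{iγ k log N(v) / T} / Γ(1 + k log N(v) / T)` -/
noncomputable def W (art : PrimeTo 𝔪 →* G) (χ : G →* ℂˣ) (γ T : ℝ) : ℂ :=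
  ∑' x : HeightOneSpectrum (𝓞 K) × ℕ, val art χ x.1 ^ (x.2 + 1) * weight γ T x

/-- `Λ = ∫_0^∞ (e^{-u} - e^{iγu} / Γ(1 + u)) du / u` -/
noncomputable def Lam (γ : ℝ) : ℂ := ∫ u in Set.Ioi (0 : ℝ),
  (Complex.exp (-(u : ℂ)) - Complex.exp ((γ * u : ℝ) * Complex.I) * ((Real.Gamma (1 + u))⁻¹ : ℝ)) / u

/-- `T e^{-Λ} exp W_χ(T)` -/
noncomputable def approx (art : PrimeTo 𝔪 →* G) (χ : G →* ℂˣ) (γ T : ℝ) : ℂ :=
  (T : ℂ) * Complex.exp (-Lam γ) * Complex.exp (W art χ γ T)

end defs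

/-- **Main theorem.**  Let `K` be a number field (for instance real quadratic; it is the field `F` of the
problem), `𝔪 ≠ 0, 𝒪_K` an integral ideal (`S` consists of the infinite places and the primes dividing `𝔪`),
`G` a finite commutative group, `art` the Artin map of an abelian extension of `K` with group `G` on the
ideals prime to `𝔪`, `v₁` an infinite place which splits completely, `γ > π/2` and `χ` a character of `G`.
* The series `W_χ(T)` converges absolutely.
* `L_S(χ, s)` has a continuation, and there is a number `D = L_S'(χ, 0)` with `L(s) / s → D` as `s → 0` for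
  every continuation `L` (so that `L_S(χ, 0) = 0`) and `T e^{-Λ} exp W_χ(T) = D + O(1/T)`.
* `D ≠ 0` if and only if the order of the continuation at `0` is `1`.
* For every complex number `R`: `L_S'(χ, 0) = R` if and only if `T e^{-Λ} exp W_χ(T) → R` along one sequence
  `T_n → ∞`. -/
theorem result (K : Type) [Field K] [NumberField K] (𝔪 : Ideal (𝓞 K)) (hbot : 𝔪 ≠ ⊥) (htop : 𝔪 ≠ ⊤)
    (G : Type) [CommGroup G] [Finite G] (art : PrimeTo 𝔪 →* G) (hart : IsArtinMap 𝔪 art)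
    (v₁ : InfinitePlace K) (hv₁ : SplitsCompletely art v₁) (γ : ℝ) (hγ : Real.pi / 2 < γ)
    (χ : G →* ℂˣ) :
    (∀ T : ℝ, 0 < T → Summable fun x : HeightOneSpectrum (𝓞 K) × ℕ =>
      ‖val art χ x.1 ^ (x.2 + 1) * weight γ T x‖) ∧
    (∃ L, IsContinuation art χ L) ∧
    ∃ D : ℂ, (∀ L, IsContinuation art χ L → Tendsto (fun s : ℂ => L s / s) (𝓝[≠] 0) (𝓝 D) ∧
        (D ≠ 0 ↔ meromorphicOrderAt L 0 = 1)) ∧
      (fun T : ℝ => approx art χ γ T - D) =O[atTop] (fun T : ℝ => 1 / T) ∧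
      ∀ R : ℂ, D = R ↔ ∃ t : ℕ → ℝ, Tendsto t atTop atTop ∧
        Tendsto (fun n => approx art χ γ (t n)) atTop (𝓝 R) := by
  have hT : Pool.Agent.N739.SU.Triv (𝔮 := 𝔪) art := fun x hx hp => hart.triv x hx hp _ rfl
  have hr : Pool.Agent.N739.SU.OrdGe htop (𝔮 := 𝔪) art 1 := by
    have h1 := Pool.Agent.N739.SU.ordGe_of hbot htop hT {v₁} (fun w hw x hx hv => by
      rw [Finset.mem_singleton] at hw
      subst hw
      exact hv₁ x hx hv _ rfl)
    rwa [Finset.card_singleton] at h1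
  have hval : ∀ v : HeightOneSpectrum (𝓞 K), val art χ v =
      Pool.Agent.N739.SU.et htop (𝔮 := 𝔪) art χ v.asIdeal := by
    intro v
    unfold val
    split_ifs with h
    · exact (Pool.Agent.N739.SU.et_pos htop (𝔮 := 𝔪) art χ h).symm
    · exact (Pool.Agent.N739.SU.et_neg htop (𝔮 := 𝔪) art χ h).symm
  have hLS : ∀ s : ℂ, 1 < s.re → LS art χ s = Pool.Agent.N739.SU.LF htop (𝔮 := 𝔪) art χ s := by
    intro s hs
    rw [← (Pool.Agent.N739.SU.LF_prod htop (𝔮 := 𝔪) art χ hs).tprod_eq]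
    unfold LS
    exact tprod_congr fun v => by rw [hval]
  have hW : ∀ T : ℝ, 0 < T → (Summable fun x : HeightOneSpectrum (𝓞 K) × ℕ =>
      ‖val art χ x.1 ^ (x.2 + 1) * weight γ T x‖) ∧
      W art χ γ T = ∑ᶠ B : G, ((χ B : ℂˣ) : ℂ) * Pool.Agent.N739.SU.Pc (𝔮 := 𝔪) art γ T B := by
    intro T hT0
    have h1 := Pool.Agent.N739.SU.chi_sum hbot htop hT χ γ hT0
    have h2 : (fun x : HeightOneSpectrum (𝓞 K) × ℕ => val art χ x.1 ^ (x.2 + 1) * weight γ T x) =
        fun x => Pool.Agent.N739.SU.et htop (𝔮 := 𝔪) art χ x.1.asIdeal ^ (x.2 + 1) *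
          Pool.Agent.N739.SU.wt γ T x := by
      funext x
      rw [hval]
      rfl
    refine ⟨?_, ?_⟩
    · have h3 := h1.1
      rw [show (fun x : HeightOneSpectrum (𝓞 K) × ℕ => ‖val art χ x.1 ^ (x.2 + 1) * weight γ T x‖) =
        fun x => ‖Pool.Agent.N739.SU.et htop (𝔮 := 𝔪) art χ x.1.asIdeal ^ (x.2 + 1) *
          Pool.Agent.N739.SU.wt γ T x‖ from funext fun x => congrArg norm (congrFun h2 x)]
      exact h3
    · unfold W
      rw [h2]
      exact h1.2
  obtain ⟨D, ⟨L, hL⟩, h2, h3⟩ := Pool.Agent.N739.SU.char_main hbot htop hT hr hγ χ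
  have hO : (fun T : ℝ => approx art χ γ T - D) =O[atTop] (fun T : ℝ => 1 / T) := by
    refine h3.congr' ?_ EventuallyEq.rfl
    filter_upwards [eventually_gt_atTop 0] with T hT0
    rw [pow_one]
    unfold approx
    rw [(hW T hT0).2]
    rfl
  refine ⟨fun T hT0 => (hW T hT0).1, ⟨L, hL.1, fun s hs => by rw [hL.2 s hs, hLS s hs]⟩, D,
    fun L' hL' => ?_, hO, fun R => Pool.Agent.N739.SU.seq_one hO R⟩
  have h4 : ∀ s : ℂ, 1 < s.re → L' s = Pool.Agent.N739.SU.LF htop (𝔮 := 𝔪) art χ s := fun s hs => by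
    rw [hL'.2 s hs, hLS s hs]
  have h5 := h2 L' hL'.1 h4
  refine ⟨h5.congr fun s => by rw [pow_one, div_eq_inv_mul], ?_⟩
  exact Pool.Agent.N739.SU.order_iff (hL'.1 0) (hr χ L' hL'.1 h4) h5

end Pool.Agent.Results.MP_c49e96_nt.DerivativeFromPrimes
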